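import Mathlib

/-!
# Flips of products: definitions

The varieties are the `ℚ`-factorial klt varieties `X` over an algebraically closed field of characteristic zero, with a
projective surjective morphism `X → S` (the base `S` can be different for different varieties).
-/

set_option autoImplicit false

namespace Pool.Agent.V7H14.PF

/-- The `ℚ`-factorial klt varieties `X / S`, their small modifications and their flips. -/
structure Flips where
  /-- the varieties `X`, with projective surjective morphisms `X → S` -/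
  Var : Type
  /-- the dimension -/
  dim : Var → ℕ
  /-- the dimension of the base of the maximal rationally connected fibration of (a projective model of) `X` -/
  mrc : Var → ℕ
  /-- the real vector space `N^1(X/S)` of the numerical classes of divisors -/
  N : Var → Type
  [group : ∀ X, AddCommGroup (N X)]
  [module : ∀ X, Module ℝ (N X)]
  /-- the `ℚ`-factorial varieties `X'`, projective over `S`, with a small birational map `X ⇢ X'` over `S`, up to
  isomorphism; the strict transform identifies `N^1(X'/S)` with `N^1(X/S)` -/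
  Model : Var → Type
  /-- `X` itself -/
  self : ∀ X, Model X
  /-- the closed cone of curves of `X'/S`, in the dual space of `N^1(X/S)` -/
  NE : ∀ {X}, Model X → Set (N X →ₗ[ℝ] ℝ)
  /-- the classes of `K + Δ` for the klt pairs `(X', Δ)`, where `Δ` is an effective real divisor -/
  Klt : ∀ {X}, Model X → Set (N X)
  /-- the pseudo-effective classes of `X` over `S` -/
  Psef : ∀ X, Set (N X)
  /-- `Flip m γ m'`: `γ` spans an extremal ray of the cone of curves of `m`, the contraction of this ray exists and is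
  small, and `m'` is the flip -/
  Flip : ∀ {X}, Model X → (N X →ₗ[ℝ] ℝ) → Model X → Prop
  /-- the product of `X / S` and `Y / T`, over `S × T` -/
  prod : Var → Var → Var
  /-- the product of the modifications `X'` and `Y'` -/
  pm : ∀ {X Y}, Model X → Model Y → Model (prod X Y)
  /-- the restriction of the classes on `X × Y` to `X × {y}` -/
  resL : ∀ X Y, N (prod X Y) →ₗ[ℝ] N X
  /-- the restriction of the classes on `X × Y` to `{x} × Y` -/
  resR : ∀ X Y, N (prod X Y) →ₗ[ℝ] N Y
  /-- the projective space of dimension `m`, over a point -/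
  P : ℕ → Var
  /-- the class of a line -/
  line : ∀ m, N (P m) →ₗ[ℝ] ℝ

attribute [instance] Flips.group Flips.module

variable (F : Flips)

/-- `γ` spans an extremal ray of the cone of curves. -/
def IsRay {X : F.Var} (m : F.Model X) (γ : F.N X →ₗ[ℝ] ℝ) : Prop :=
  γ ∈ F.NE m ∧ γ ≠ 0 ∧ ∀ a ∈ F.NE m, ∀ b ∈ F.NE m, a + b = γ → ∃ s t : ℝ, 0 ≤ s ∧ 0 ≤ t ∧ a = s • γ ∧ b = t • γ

/-- `m'` is a flip of `m` for the class `α`: the flip of an extremal ray on which `α` is negative. -/
def Step {X : F.Var} (α : F.N X) (m m' : F.Model X) : Prop :=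
  ∃ γ : F.N X →ₗ[ℝ] ℝ, γ α < 0 ∧ F.Flip m γ m'

/-- Known properties of the cones of curves and of flips. -/
structure FlipFacts : Prop where
  /-- the closed cone of curves is a cone -/
  smul_mem : ∀ {X} (m : F.Model X) (a : F.N X →ₗ[ℝ] ℝ), a ∈ F.NE m → ∀ t : ℝ, 0 ≤ t → t • a ∈ F.NE m
  ray : ∀ {X} (m m' : F.Model X) (γ : F.N X →ₗ[ℝ] ℝ), F.Flip m γ m' → IsRay F m γ
  /-- the flip of a ray is unique -/
  unique : ∀ {X} (m m' m'' : F.Model X) (γ : F.N X →ₗ[ℝ] ℝ), F.Flip m γ m' → F.Flip m γ m'' → m' = m''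
  /-- a klt pair remains klt after a flip -/
  klt : ∀ {X} (m m' : F.Model X) (α : F.N X), α ∈ F.Klt m → Step F α m m' → α ∈ F.Klt m'
  /-- a sequence of flips of a klt pair does not return (the discrepancies increase) -/
  no_return : ∀ {X} (α : F.N X) (m : ℕ → F.Model X) (L : ℕ), α ∈ F.Klt (m 0) → 0 < L →
    (∀ i < L, Step F α (m i) (m (i + 1))) → m L ≠ m 0
  /-- the varieties are klt -/
  nonempty : ∀ X, (F.Klt (F.self X)).Nonempty

/-- Known properties of the cones of curves of products. -/
structure CurveFacts : Prop where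
  dim_prod : ∀ X Y, F.dim (F.prod X Y) = F.dim X + F.dim Y
  self_prod : ∀ X Y, F.pm (F.self X) (F.self Y) = F.self (F.prod X Y)
  /-- curves `C × {y}` -/
  ne_left : ∀ {X Y} (m : F.Model X) (n : F.Model Y) (a : F.N X →ₗ[ℝ] ℝ), a ∈ F.NE m →
    a ∘ₗ F.resL X Y ∈ F.NE (F.pm m n)
  /-- curves `{x} × C` -/
  ne_right : ∀ {X Y} (m : F.Model X) (n : F.Model Y) (b : F.N Y →ₗ[ℝ] ℝ), b ∈ F.NE n →
    b ∘ₗ F.resR X Y ∈ F.NE (F.pm m n)
  /-- the extremal rays on which `K + Δ` is negative are spanned by rational curves, and `C` and the sum of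
  `pr₁ C × {y}` and `{x} × pr₂ C` have the same class if `C` is a rational curve -/
  curve : ∀ {X Y} (m : F.Model X) (n : F.Model Y) (α : F.N (F.prod X Y)) (γ : F.N (F.prod X Y) →ₗ[ℝ] ℝ),
    α ∈ F.Klt (F.pm m n) → IsRay F (F.pm m n) γ → γ α < 0 →
      ∃ a ∈ F.NE m, ∃ b ∈ F.NE n, γ = a ∘ₗ F.resL X Y + b ∘ₗ F.resR X Y

/-- Known properties of klt pairs on products. -/
structure KltFacts : Prop where
  /-- the restrictions of klt pairs to the general subvarieties `X × {y}` and `{x} × Y` are klt -/
  klt_left : ∀ {X Y} (m : F.Model X) (n : F.Model Y) (α : F.N (F.prod X Y)), α ∈ F.Klt (F.pm m n) →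
    F.resL X Y α ∈ F.Klt m
  klt_right : ∀ {X Y} (m : F.Model X) (n : F.Model Y) (α : F.N (F.prod X Y)), α ∈ F.Klt (F.pm m n) →
    F.resR X Y α ∈ F.Klt n
  /-- `(X × Y, Δ × Y + X × Γ)` is klt -/
  klt_prod : ∀ {X Y} (α : F.N X) (β : F.N Y), α ∈ F.Klt (F.self X) → β ∈ F.Klt (F.self Y) →
    ∃ δ ∈ F.Klt (F.self (F.prod X Y)), F.resL X Y δ = α ∧ F.resR X Y δ = β

/-- Known properties: the product of a flip with a variety is a flip. -/
structure ProductFlipFacts : Prop where
  flip_left : ∀ {X Y} (m m' : F.Model X) (n : F.Model Y) (a : F.N X →ₗ[ℝ] ℝ), F.Flip m a m' →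
    F.Flip (F.pm m n) (a ∘ₗ F.resL X Y) (F.pm m' n)
  flip_right : ∀ {X Y} (m : F.Model X) (n n' : F.Model Y) (b : F.N Y →ₗ[ℝ] ℝ), F.Flip n b n' →
    F.Flip (F.pm m n) (b ∘ₗ F.resR X Y) (F.pm m n')

/-- Known properties: if a ray of curves in the `X × {y}` (or in the `{x} × Y`) is a flipping ray for a klt pair on the
product, then it is a flipping ray for the restriction of the pair (contraction theorem and existence of flips). -/
structure FactorFlipFacts : Prop where
  unflip_left : ∀ {X Y} (m : F.Model X) (n : F.Model Y) (w : F.Model (F.prod X Y)) (α : F.N (F.prod X Y))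
    (a : F.N X →ₗ[ℝ] ℝ), α ∈ F.Klt (F.pm m n) → a (F.resL X Y α) < 0 →
      F.Flip (F.pm m n) (a ∘ₗ F.resL X Y) w → ∃ m', F.Flip m a m'
  unflip_right : ∀ {X Y} (m : F.Model X) (n : F.Model Y) (w : F.Model (F.prod X Y)) (α : F.N (F.prod X Y))
    (b : F.N Y →ₗ[ℝ] ℝ), α ∈ F.Klt (F.pm m n) → b (F.resR X Y α) < 0 →
      F.Flip (F.pm m n) (b ∘ₗ F.resR X Y) w → ∃ n', F.Flip n b n'

/-- Known properties of projective spaces: the canonical class is negative on lines, `X × P^m` is covered by lines
over `X`, and the base of the maximal rationally connected fibration of `X × P^m` is that of `X`. -/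
structure SpaceFacts : Prop where
  dim_P : ∀ m, F.dim (F.P m) = m
  canonical_P : ∀ m, 1 ≤ m → ∃ κ ∈ F.Klt (F.self (F.P m)), F.line m κ < 0
  psef_P : ∀ X m, 1 ≤ m → ∀ α ∈ F.Psef (F.prod X (F.P m)), 0 ≤ F.line m (F.resR X (F.P m) α)
  mrc_P : ∀ X m, F.mrc (F.prod X (F.P m)) ≤ F.dim X

/-- Known properties. -/
structure IsFlips : Prop extends FlipFacts F, CurveFacts F, KltFacts F, ProductFlipFacts F, FactorFlipFacts F,
  SpaceFacts F

/-- `X = m 0 ⇢ m 1 ⇢ ⋯ ⇢ m L` is a sequence of flips for the class `α` of `K + Δ`. -/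
def IsSequence {X : F.Var} (α : F.N X) (L : ℕ) (m : ℕ → F.Model X) : Prop :=
  m 0 = F.self X ∧ ∀ i < L, Step F α (m i) (m (i + 1))

/-- All sequences of flips which start from `(X, Δ)` are finite, `α` the class of `K + Δ`. -/
def Terminates (X : F.Var) (α : F.N X) : Prop := ¬ ∃ m : ℕ → F.Model X, ∀ L, IsSequence F α L m

/-- All sequences of flips are finite for all klt pairs `(X, Δ)`. -/
def AllTerminate (X : F.Var) : Prop := ∀ α ∈ F.Klt (F.self X), Terminates F X α

/-- All sequences of flips are finite for all klt pairs `(X, Δ)` such that `K + Δ` is not pseudo-effective over `S`. -/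
def NonPseudoEffectiveTerminate (X : F.Var) : Prop :=
  ∀ α ∈ F.Klt (F.self X), α ∉ F.Psef X → Terminates F X α

/-- The sequence `w` on `X × Y` is a shuffle of sequences on `X` and `Y`: `w i = x i × y i` for `i ≤ L`, and in each step
one of the factors is flipped. -/
def IsShuffle {X Y : F.Var} (α : F.N (F.prod X Y)) (L : ℕ) (w : ℕ → F.Model (F.prod X Y)) (x : ℕ → F.Model X)
    (y : ℕ → F.Model Y) : Prop :=
  x 0 = F.self X ∧ y 0 = F.self Y ∧ (∀ i ≤ L, w i = F.pm (x i) (y i)) ∧
    ∀ i < L, (Step F (F.resL X Y α) (x i) (x (i + 1)) ∧ y (i + 1) = y i) ∨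
      (x (i + 1) = x i ∧ Step F (F.resR X Y α) (y i) (y (i + 1)))

/-- The varieties which are built by products from varieties of dimension at most `d` and varieties with finitely many
small `ℚ`-factorial modifications (for instance Mori dream spaces). -/
inductive Built (d : ℕ) : F.Var → Prop
  | low (X : F.Var) (h : F.dim X ≤ d) : Built d X
  | finite (X : F.Var) (h : Finite (F.Model X)) : Built d X
  | prod (X Y : F.Var) (h : Built d X) (h' : Built d Y) : Built d (F.prod X Y)

end Pool.Agent.V7H14.PF
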