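import Pool.Agent.V7H14.PF.Def

/-!
# Flips of products
-/

set_option autoImplicit false

namespace Pool.Agent.V7H14.PF

variable {F : Flips}

theorem step_cases (hF : IsFlips F) {X Y : F.Var} {m : F.Model X} {n : F.Model Y} {w : F.Model (F.prod X Y)}
    {α : F.N (F.prod X Y)} (hα : α ∈ F.Klt (F.pm m n)) (h : Step F α (F.pm m n) w) :
    (∃ m', Step F (F.resL X Y α) m m' ∧ w = F.pm m' n) ∨ ∃ n', Step F (F.resR X Y α) n n' ∧ w = F.pm m n' := by
  obtain ⟨γ, hγ, hf⟩ := h
  have hr := hF.ray _ _ _ hf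
  obtain ⟨a, ha, b, hb, hab⟩ := hF.curve m n α γ hα hr hγ
  obtain ⟨s, t, hs, ht, h1, h2⟩ := hr.2.2 _ (hF.ne_left m n a ha) _ (hF.ne_right m n b hb) hab.symm
  have h3 : γ α = s * γ α + t * γ α := by
    have e1 := LinearMap.congr_fun h1 α
    have e2 := LinearMap.congr_fun h2 α
    have e3 := LinearMap.congr_fun hab α
    rw [LinearMap.add_apply, e1, e2] at e3
    simpa using e3
  have h5 : s + t - 1 = 0 := by
    have h4 : (s + t - 1) * γ α = 0 := by linarith
    exact (mul_eq_zero.1 h4).resolve_right hγ.ne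
  rcases lt_or_eq_of_le hs with h6 | h6
  · left
    have e : γ = (s⁻¹ • a) ∘ₗ F.resL X Y := by
      rw [LinearMap.smul_comp, h1, smul_smul, inv_mul_cancel₀ h6.ne', one_smul]
    rw [e] at hf hγ
    obtain ⟨m', hm⟩ := hF.unflip_left m n w α _ hα hγ hf
    exact ⟨m', ⟨_, hγ, hm⟩, hF.unique _ _ _ _ hf (hF.flip_left m m' n _ hm)⟩
  · right
    have h7 : t = 1 := by linarith
    have e : γ = b ∘ₗ F.resR X Y := by rw [h2, h7, one_smul]
    rw [e] at hf hγ
    obtain ⟨n', hn⟩ := hF.unflip_right m n w α _ hα hγ hf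
    exact ⟨n', ⟨_, hγ, hn⟩, hF.unique _ _ _ _ hf (hF.flip_right m n n' _ hn)⟩

theorem step_left (hF : IsFlips F) {X Y : F.Var} {m m' : F.Model X} (n : F.Model Y)
    {α : F.N (F.prod X Y)} (h : Step F (F.resL X Y α) m m') : Step F α (F.pm m n) (F.pm m' n) := by
  obtain ⟨a, ha, hf⟩ := h
  exact ⟨a ∘ₗ F.resL X Y, ha, hF.flip_left m m' n a hf⟩

theorem step_right (hF : IsFlips F) {X Y : F.Var} (m : F.Model X) {n n' : F.Model Y}
    {α : F.N (F.prod X Y)} (h : Step F (F.resR X Y α) n n') : Step F α (F.pm m n) (F.pm m n') := by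
  obtain ⟨b, hb, hf⟩ := h
  exact ⟨b ∘ₗ F.resR X Y, hb, hF.flip_right m n n' b hf⟩

/-- choice of a sequence -/
theorem choose_seq {S : Type} (P : ℕ → S → Prop) (R : ℕ → S → S → Prop) (s0 : S) (h0 : P 0 s0)
    (h : ∀ i s, P i s → ∃ s', P (i + 1) s' ∧ R i s s') :
    ∃ f : ℕ → S, f 0 = s0 ∧ ∀ i, P i (f i) ∧ R i (f i) (f (i + 1)) := by
  classical
  let nx : ∀ i, {s // P i s} → {s // P (i + 1) s} := fun i s => ⟨(h i s.1 s.2).choose, (h i s.1 s.2).choose_spec.1⟩
  let g : ∀ i, {s // P i s} := fun i => Nat.rec ⟨s0, h0⟩ (fun i s => nx i s) i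
  exact ⟨fun i => (g i).1, rfl, fun i => ⟨(g i).2, (h i (g i).1 (g i).2).choose_spec.2⟩⟩

/-- the decomposition of a sequence on the product; `A i` says that the `i`-th step is a flip -/
theorem decompose (hF : IsFlips F) {X Y : F.Var} {α : F.N (F.prod X Y)} (hα : α ∈ F.Klt (F.self (F.prod X Y)))
    (w : ℕ → F.Model (F.prod X Y)) (h0 : w 0 = F.self _) (A : ℕ → Prop)
    (hw : ∀ i, (∀ j ≤ i, A j) → Step F α (w i) (w (i + 1))) :
    ∃ (x : ℕ → F.Model X) (y : ℕ → F.Model Y), x 0 = F.self X ∧ y 0 = F.self Y ∧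
      (∀ i, (∀ j < i, A j) → w i = F.pm (x i) (y i)) ∧
      ∀ i, (∀ j ≤ i, A j) → (Step F (F.resL X Y α) (x i) (x (i + 1)) ∧ y (i + 1) = y i) ∨
        (x (i + 1) = x i ∧ Step F (F.resR X Y α) (y i) (y (i + 1))) := by
  obtain ⟨f, hf0, hf⟩ := choose_seq (S := F.Model X × F.Model Y)
    (fun i s => (∀ j < i, A j) → w i = F.pm s.1 s.2 ∧ α ∈ F.Klt (w i))
    (fun i s s' => (∀ j ≤ i, A j) → (Step F (F.resL X Y α) s.1 s'.1 ∧ s'.2 = s.2) ∨
        (s'.1 = s.1 ∧ Step F (F.resR X Y α) s.2 s'.2))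
    (F.self X, F.self Y) (fun _ => ⟨by rw [h0]; exact (hF.self_prod X Y).symm, by rw [h0]; exact hα⟩)
    (by
      intro i s hs
      by_cases hA : ∀ j ≤ i, A j
      · obtain ⟨h1, h2⟩ := hs fun j hj => hA j hj.le
        have h3 := hw i hA
        have h4 := hF.klt _ _ _ h2 h3
        rw [h1] at h2 h3
        rcases step_cases hF h2 h3 with ⟨m', h5, h6⟩ | ⟨n', h5, h6⟩
        · exact ⟨(m', s.2), fun _ => ⟨h6, h4⟩, fun _ => Or.inl ⟨h5, rfl⟩⟩
        · exact ⟨(s.1, n'), fun _ => ⟨h6, h4⟩, fun _ => Or.inr ⟨rfl, h5⟩⟩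
      · exact ⟨s, fun h => absurd (fun j hj => h j (Nat.lt_succ_of_le hj)) hA, fun h => absurd h hA⟩)
  refine ⟨fun i => (f i).1, fun i => (f i).2, congrArg Prod.fst hf0, congrArg Prod.snd hf0,
    fun i hi => ((hf i).1 hi).1,
    fun i hi => (hf i).2 hi⟩

/-- `1.` sequences on the product are shuffles -/
theorem shuffle (hF : IsFlips F) {X Y : F.Var} {α : F.N (F.prod X Y)} (hα : α ∈ F.Klt (F.self (F.prod X Y)))
    (L : ℕ) (w : ℕ → F.Model (F.prod X Y)) : IsSequence F α L w ↔ ∃ x y, IsShuffle F α L w x y := by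
  constructor
  · rintro ⟨h0, h⟩
    obtain ⟨x, y, hx, hy, h1, h2⟩ := decompose hF hα w h0 (fun i => i < L) fun i hi => h i (hi i le_rfl)
    exact ⟨x, y, hx, hy, fun i hi => h1 i fun j hj => hj.trans_le hi, fun i hi => h2 i fun j hj => hj.trans_lt hi⟩
  · rintro ⟨x, y, hx, hy, h1, h2⟩
    refine ⟨by rw [h1 0 (Nat.zero_le _), hx, hy, hF.self_prod], fun i hi => ?_⟩
    rw [h1 i hi.le, h1 (i + 1) hi]
    rcases h2 i hi with ⟨h3, h4⟩ | ⟨h3, h4⟩
    · rw [h4]
      exact step_left hF _ h3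
    · rw [h3]
      exact step_right hF _ h4

/-- a sequence with repetitions contains a sequence without repetitions -/
theorem compress {M : Type} (S : M → M → Prop) (x : ℕ → M) (c : ℕ → Prop) [DecidablePred c] :
    ∀ L : ℕ, (∀ i < L, (c i → S (x i) (x (i + 1))) ∧ (¬ c i → x (i + 1) = x i)) →
    ∃ m : ℕ → M, m 0 = x 0 ∧ m ((Finset.range L).filter c).card = x L ∧
      ∀ j < ((Finset.range L).filter c).card, S (m j) (m (j + 1)) := by
  intro L
  induction L with
  | zero => exact fun _ => ⟨fun _ => x 0, rfl, rfl, fun j hj => absurd hj (by simp)⟩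
  | succ L ih =>
    intro h
    obtain ⟨m, hm0, hmL, hm⟩ := ih fun i hi => h i (Nat.lt_succ_of_lt hi)
    obtain ⟨h1, h2⟩ := h L (Nat.lt_succ_self L)
    rw [Finset.range_add_one, Finset.filter_insert]
    by_cases hc : c L
    · rw [if_pos hc, Finset.card_insert_of_notMem (by simp)]
      set p := ((Finset.range L).filter c).card
      refine ⟨fun j => if j ≤ p then m j else x (L + 1), ?_, ?_, ?_⟩
      · simp only [Nat.zero_le, if_true]
        exact hm0
      · simp
      · intro j hj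
        rcases Nat.lt_succ_iff_lt_or_eq.1 hj with h3 | h3
        · have e1 : j ≤ p := h3.le
          have e2 : j + 1 ≤ p := h3
          simp only [e1, e2, if_true]
          exact hm j h3
        · have e1 : j ≤ p := h3.le
          have e2 : ¬ j + 1 ≤ p := by omega
          simp only [e1, e2, if_true, if_false]
          rw [h3, hmL]
          exact h1 hc
    · rw [if_neg hc]
      refine ⟨m, hm0, ?_, hm⟩
      rw [h2 hc]
      exact hmL

/-- an infinite sequence with infinitely many steps -/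
theorem compress_infinite {M : Type} (S : M → M → Prop) (x : ℕ → M) (c : ℕ → Prop)
    (h : ∀ i, (c i → S (x i) (x (i + 1))) ∧ (¬ c i → x (i + 1) = x i)) (hc : {i | c i}.Infinite) :
    ∃ m : ℕ → M, m 0 = x 0 ∧ ∀ j, S (m j) (m (j + 1)) := by
  classical
  have key : ∀ k a, (∀ i, a ≤ i → i < a + k → ¬ c i) → x (a + k) = x a := by
    intro k
    induction k with
    | zero => exact fun a _ => rfl
    | succ k ih =>
      intro a ha
      have h1 := (h (a + k)).2 (ha (a + k) (Nat.le_add_right _ _) (by omega))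
      rw [show a + (k + 1) = a + k + 1 by omega, h1]
      exact ih a fun i h2 h3 => ha i h2 (by omega)
  have key' : ∀ a b, a ≤ b → (∀ i, a ≤ i → i < b → ¬ c i) → x b = x a := by
    intro a b hab hi
    obtain ⟨k, rfl⟩ := Nat.exists_eq_add_of_le hab
    exact key k a hi
  have hmono := Nat.nth_strictMono hc
  refine ⟨fun j => x (Nat.nth c j), ?_, fun j => ?_⟩
  · refine key' 0 _ (Nat.zero_le _) fun i _ hi hci => ?_
    have h1 := Nat.count_strict_mono (p := c) hci (show i < Nat.nth c 0 from hi)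
    rw [Nat.count_nth_of_infinite hc] at h1
    omega
  · have h1 : x (Nat.nth c (j + 1)) = x (Nat.nth c j + 1) := by
      refine key' _ _ (hmono (Nat.lt_succ_self j)) fun i h2 h3 hci => ?_
      have h4 : Nat.count c i < Nat.count c (Nat.nth c (j + 1)) := Nat.count_strict_mono (p := c) hci h3
      have h8 : Nat.count c (Nat.nth c (j + 1)) = j + 1 := Nat.count_nth_of_infinite hc (j + 1)
      have h5 := Nat.count_monotone c h2
      have h6 : Nat.count c (Nat.nth c j) < Nat.count c (Nat.nth c j + 1) :=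
        Nat.count_strict_mono (p := c) (Nat.nth_mem_of_infinite hc j) (Nat.lt_succ_self _)
      have h7 : Nat.count c (Nat.nth c j) = j := Nat.count_nth_of_infinite hc j
      omega
    show S (x (Nat.nth c j)) (x (Nat.nth c (j + 1)))
    rw [h1]
    exact (h _).1 (Nat.nth_mem_of_infinite hc j)

/-- `2.` lengths: a sequence on the product gives sequences on the factors with the same total length -/
theorem lengths (hF : IsFlips F) {X Y : F.Var} {α : F.N (F.prod X Y)} (hα : α ∈ F.Klt (F.self (F.prod X Y)))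
    (L : ℕ) : (∃ w, IsSequence F α L w) ↔ ∃ p q, p + q = L ∧ (∃ m, IsSequence F (F.resL X Y α) p m) ∧
      ∃ n, IsSequence F (F.resR X Y α) q n := by
  classical
  constructor
  · rintro ⟨w, hw⟩
    obtain ⟨x, y, hx, hy, -, h⟩ := (shuffle hF hα L w).1 hw
    set c : ℕ → Prop := fun i => Step F (F.resL X Y α) (x i) (x (i + 1)) ∧ y (i + 1) = y i with hc
    have h1 : ∀ i < L, ¬ c i → x (i + 1) = x i ∧ Step F (F.resR X Y α) (y i) (y (i + 1)) :=
      fun i hi hci => (h i hi).resolve_left hci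
    obtain ⟨m, hm0, -, hm⟩ := compress (Step F (F.resL X Y α)) x c L
      fun i hi => ⟨fun h2 => h2.1, fun h2 => (h1 i hi h2).1⟩
    obtain ⟨n, hn0, -, hn⟩ := compress (Step F (F.resR X Y α)) y (fun i => ¬ c i) L
      fun i hi => ⟨fun h2 => (h1 i hi h2).2, fun h2 => (not_not.1 h2).2⟩
    refine ⟨_, _, ?_, ⟨m, hm0.trans hx, hm⟩, n, hn0.trans hy, hn⟩
    rw [Finset.card_filter_add_card_filter_not]
    simp
  · rintro ⟨p, q, rfl, ⟨m, hm0, hm⟩, n, hn0, hn⟩
    refine ⟨fun i => F.pm (m (min i p)) (n (i - p)), (shuffle hF hα _ _).2 ⟨fun i => m (min i p), fun i => n (i - p),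
      by simpa using hm0, by simpa using hn0, fun _ _ => rfl, fun i hi => ?_⟩⟩
    rcases lt_or_ge i p with h | h
    · left
      have e1 : min i p = i := min_eq_left h.le
      have e2 : min (i + 1) p = i + 1 := min_eq_left h
      have e3 : i + 1 - p = 0 := by omega
      have e4 : i - p = 0 := by omega
      simp only [e1, e2, e3, e4]
      exact ⟨hm i h, trivial⟩
    · right
      have e1 : min i p = p := min_eq_right h
      have e2 : min (i + 1) p = p := min_eq_right (by omega)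
      have e3 : i + 1 - p = (i - p) + 1 := by omega
      simp only [e1, e2, e3]
      exact ⟨trivial, hn _ (by omega)⟩

/-- `3.` termination on the product and on the factors -/
theorem terminates_prod (hF : IsFlips F) {X Y : F.Var} {α : F.N (F.prod X Y)}
    (hα : α ∈ F.Klt (F.self (F.prod X Y))) :
    Terminates F (F.prod X Y) α ↔ Terminates F X (F.resL X Y α) ∧ Terminates F Y (F.resR X Y α) := by
  classical
  constructor
  · intro h
    constructor
    · rintro ⟨m, hm⟩
      refine h ⟨fun i => F.pm (m i) (F.self Y), fun L => ?_⟩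
      refine ⟨?_, fun i hi => step_left hF _ ((hm L).2 i hi)⟩
      show F.pm (m 0) _ = _
      rw [(hm 0).1]
      exact hF.self_prod X Y
    · rintro ⟨n, hn⟩
      refine h ⟨fun i => F.pm (F.self X) (n i), fun L => ?_⟩
      refine ⟨?_, fun i hi => step_right hF _ ((hn L).2 i hi)⟩
      show F.pm _ (n 0) = _
      rw [(hn 0).1]
      exact hF.self_prod X Y
  · rintro ⟨hX, hY⟩ ⟨w, hw⟩
    obtain ⟨x, y, hx, hy, -, h⟩ := decompose hF hα w (hw 0).1 (fun _ => True) fun i _ => (hw (i + 1)).2 i (Nat.lt_succ_self i)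
    set c : ℕ → Prop := fun i => Step F (F.resL X Y α) (x i) (x (i + 1)) ∧ y (i + 1) = y i with hc
    have h1 : ∀ i, ¬ c i → x (i + 1) = x i ∧ Step F (F.resR X Y α) (y i) (y (i + 1)) :=
      fun i hci => (h i fun _ _ => trivial).resolve_left hci
    by_cases hinf : {i | c i}.Infinite
    · obtain ⟨m, hm0, hm⟩ := compress_infinite (Step F (F.resL X Y α)) x c
        (fun i => ⟨fun h2 => h2.1, fun h2 => (h1 i h2).1⟩) hinf
      exact hX ⟨m, fun L => ⟨hm0.trans hx, fun i _ => hm i⟩⟩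
    · have hinf' : {i | ¬ c i}.Infinite := by
        rw [Set.not_infinite] at hinf
        exact hinf.infinite_compl
      obtain ⟨n, hn0, hn⟩ := compress_infinite (Step F (F.resR X Y α)) y (fun i => ¬ c i)
        (fun i => ⟨fun h2 => (h1 i h2).2, fun h2 => (not_not.1 h2).2⟩) hinf'
      exact hY ⟨n, fun L => ⟨hn0.trans hy, fun i _ => hn i⟩⟩

/-- `4.` the class of the varieties on which all flips terminate -/
theorem all_prod (hF : IsFlips F) (X Y : F.Var) :
    AllTerminate F (F.prod X Y) ↔ AllTerminate F X ∧ AllTerminate F Y := by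
  constructor
  · intro h
    obtain ⟨α, hα⟩ := hF.nonempty X
    obtain ⟨β, hβ⟩ := hF.nonempty Y
    refine ⟨fun a ha => ?_, fun b hb => ?_⟩
    · obtain ⟨δ, h1, h2, -⟩ := hF.klt_prod a β ha hβ
      rw [← h2]
      exact ((terminates_prod hF h1).1 (h δ h1)).1
    · obtain ⟨δ, h1, -, h2⟩ := hF.klt_prod α b hα hb
      rw [← h2]
      exact ((terminates_prod hF h1).1 (h δ h1)).2
  · rintro ⟨hX, hY⟩ α hα
    refine (terminates_prod hF hα).2 ⟨hX _ ?_, hY _ ?_⟩
    · rw [← hF.self_prod] at hα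
      exact hF.klt_left _ _ α hα
    · rw [← hF.self_prod] at hα
      exact hF.klt_right _ _ α hα

theorem klt_seq (hF : IsFlips F) {X : F.Var} {α : F.N X} {m : ℕ → F.Model X} (h0 : α ∈ F.Klt (m 0))
    (h : ∀ i, Step F α (m i) (m (i + 1))) : ∀ i, α ∈ F.Klt (m i)
  | 0 => h0
  | i + 1 => hF.klt _ _ _ (klt_seq hF h0 h i) (h i)

/-- finitely many small modifications -/
theorem all_finite (hF : IsFlips F) (X : F.Var) (hX : Finite (F.Model X)) : AllTerminate F X := by
  rintro α hα ⟨m, hm⟩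
  have h0 : α ∈ F.Klt (m 0) := by rw [(hm 0).1]; exact hα
  have h1 : ∀ i, Step F α (m i) (m (i + 1)) := fun i => (hm (i + 1)).2 i (Nat.lt_succ_self i)
  refine not_injective_infinite_finite m fun i j hij => ?_
  have key : ∀ i j, i < j → m i ≠ m j := by
    intro i j hij h
    refine hF.no_return α (fun k => m (i + k)) (j - i) (klt_seq hF h0 h1 i) (by omega) (fun k _ => h1 (i + k)) ?_
    show m (i + (j - i)) = m (i + 0)
    rw [Nat.add_sub_cancel' hij.le]
    exact h.symm
  rcases lt_trichotomy i j with h | h | h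
  · exact absurd hij (key i j h)
  · exact h
  · exact absurd hij.symm (key j i h)

/-- `5.` the varieties built by products -/
theorem all_built (hF : IsFlips F) (d : ℕ) (hd : ∀ X, F.dim X ≤ d → AllTerminate F X) :
    ∀ X, Built F d X → AllTerminate F X := by
  intro X h
  induction h with
  | low X h => exact hd X h
  | finite X h => exact all_finite hF X h
  | prod X Y _ _ h1 h2 => exact (all_prod hF X Y).2 ⟨h1, h2⟩

/-- the product with a projective space -/
theorem lift_P (hF : IsFlips F) (X : F.Var) (m : ℕ) (hm : 1 ≤ m) (α : F.N X) (hα : α ∈ F.Klt (F.self X))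
    (h : ∀ β ∈ F.Klt (F.self (F.prod X (F.P m))), β ∉ F.Psef _ → Terminates F _ β) : Terminates F X α := by
  obtain ⟨κ, hκ, hl⟩ := hF.canonical_P m hm
  obtain ⟨β, hβ, h1, h2⟩ := hF.klt_prod α κ hα hκ
  have h3 : β ∉ F.Psef _ := by
    intro h4
    have h5 := hF.psef_P X m hm β h4
    rw [h2] at h5
    linarith
  rw [← h1]
  exact ((terminates_prod hF hβ).1 (h β hβ h3)).1

theorem dimension_shift (hF : IsFlips F) (n : ℕ)
    (h : ∀ Y, F.dim Y = n + 1 → NonPseudoEffectiveTerminate F Y) : ∀ X, F.dim X = n → AllTerminate F X := by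
  intro X hX α hα
  refine lift_P hF X 1 le_rfl α hα (h (F.prod X (F.P 1)) ?_)
  rw [hF.dim_prod, hF.dim_P, hX]

theorem small_base (hF : IsFlips F) (φ : ℕ → ℕ) (hφ : ∀ B, ∃ n, B ≤ φ n)
    (h : ∀ Y, F.mrc Y ≤ φ (F.dim Y) → NonPseudoEffectiveTerminate F Y) : ∀ X, AllTerminate F X := by
  intro X α hα
  obtain ⟨n, hn1, hn2⟩ : ∃ n, F.dim X + 1 ≤ n ∧ F.dim X ≤ φ n := by
    set B := F.dim X + ∑ k ∈ Finset.range (F.dim X + 1), (φ k + 1) with hB
    obtain ⟨n, hn⟩ := hφ B
    refine ⟨n, ?_, (Nat.le_add_right _ _).trans (hB ▸ hn)⟩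
    by_contra hlt
    push Not at hlt
    have h1 : φ n + 1 ≤ ∑ k ∈ Finset.range (F.dim X + 1), (φ k + 1) :=
      Finset.single_le_sum (f := fun k => φ k + 1) (fun _ _ => Nat.zero_le _) (Finset.mem_range.2 hlt)
    omega
  obtain ⟨m, rfl⟩ : ∃ m, n = F.dim X + m := ⟨n - F.dim X, by omega⟩
  refine lift_P hF X m (by omega) α hα (h (F.prod X (F.P m)) ?_)
  rw [hF.dim_prod, hF.dim_P]
  exact (hF.mrc_P X m).trans hn2

end Pool.Agent.V7H14.PF
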